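import Pool.Agent.Helper75.AL.Fin
import Pool.Agent.Helper85.AL.W4

/-! The core of the argument with the convex bound: zeros at distance at most `2 a + 2 κ`. -/

set_option autoImplicit false
set_option maxHeartbeats 1000000

open Complex MeasureTheory Filter Topology

namespace Pool.Agent.Helper75.AL

open Pool.Agent.Helper75.LQ Pool.Agent.Helper85.AL

/-- the core with the convex bound below the zeros -/
theorem w4c (h2 : St_W2) (h3W : St_W3) {G : ℕ → ℂ → ℂ} {L : ℕ → ℝ} {a κ r b : ℝ} (hG : AG G L) (ha0 : 0 ≤ a)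
    (ha1 : a ≤ 1 / 2) (hκ0 : 0 ≤ κ) (hr0 : 0 < r) (hrb : r ≤ b) (hb1 : b ≤ 1 / 2) (hab : 2 * a ≤ b)
    (hlt : 2 * a + r * (1 - 2 * a / b) + 2 * κ * Real.log (b / r) < b) (hline : ALine a G L) (hnz : ANoZ b G)
    (hlag : ALag κ G L) : ∃ b' : ℝ, 0 ≤ b' ∧ b' < b ∧ ANoZ b' G := by
  have hb0 : 0 < b := by linarith
  have hlbr : 0 ≤ Real.log (b / r) := Real.log_nonneg (by rw [le_div_iff₀ hr0]; linarith)
  have hab1 : 2 * a / b ≤ 1 := by rw [div_le_one hb0]; exact hab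
  have hrab : 0 ≤ r * (1 - 2 * a / b) := mul_nonneg hr0.le (by linarith)
  obtain ⟨g, hg⟩ : ∃ g : ℝ, g = b - (2 * a + r * (1 - 2 * a / b) + 2 * κ * Real.log (b / r)) := ⟨_, rfl⟩
  have hg0 : 0 < g := by linarith
  have hgb : g ≤ b := by
    have : 0 ≤ 2 * κ * Real.log (b / r) := by positivity
    linarith
  obtain ⟨s, hs⟩ : ∃ s : ℝ, s = g * b / (96 * (κ + 1)) := ⟨_, rfl⟩
  have hs0 : 0 < s := by rw [hs]; positivity
  have hsg : s ≤ g / 96 := by
    rw [hs, div_le_div_iff₀ (by positivity) (by norm_num)]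
    nlinarith [mul_pos hg0 hb0]
  have hsκ : 6 * κ * s / b ≤ g / 16 := by
    have e : 6 * κ * s / b = 6 * κ * g / (96 * (κ + 1)) := by
      rw [hs]; field_simp
    rw [e, div_le_div_iff₀ (by positivity) (by norm_num)]
    nlinarith
  have hl1 : 0 ≤ Real.log (1 / r) := Real.log_nonneg (by rw [le_div_iff₀ hr0]; linarith)
  obtain ⟨τ, hτ⟩ : ∃ τ : ℝ, τ = min (s / 4) ((g / 32) / (Real.log (1 / r) + 1)) := ⟨_, rfl⟩
  have hτ0 : 0 < τ := by rw [hτ]; positivity
  have hτs : τ ≤ s / 4 := by rw [hτ]; exact min_le_left _ _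
  have hτl : τ * Real.log (1 / r) ≤ g / 32 := by
    have h1 : τ ≤ (g / 32) / (Real.log (1 / r) + 1) := by rw [hτ]; exact min_le_right _ _
    rw [le_div_iff₀ (by linarith)] at h1
    nlinarith
  obtain ⟨ε, hε⟩ : ∃ ε : ℝ, ε = s / 8 := ⟨_, rfl⟩
  have hε0 : 0 < ε := by linarith
  have hbτ : 0 < b - τ := by linarith
  obtain ⟨R, hR⟩ : ∃ R : ℝ, R = b + s := ⟨_, rfl⟩
  have hR0 : 0 < R := by linarith
  obtain ⟨R2, hR2⟩ : ∃ R2 : ℝ, R2 = R ^ 2 / (b - τ) := ⟨_, rfl⟩
  have hR2e : R2 * (b - τ) = R ^ 2 := by rw [hR2]; field_simp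
  have hR2le : R2 ≤ b + 3 * s := by
    rw [hR2, div_le_iff₀ hbτ, hR]
    have h1 : (b + 3 * s) * (b - s / 4) ≤ (b + 3 * s) * (b - τ) := mul_le_mul_of_nonneg_left (by linarith) (by linarith)
    nlinarith
  have hR2ge : R ≤ R2 := by
    rw [hR2, le_div_iff₀ hbτ, sq]
    exact mul_le_mul_of_nonneg_left (by linarith) hR0.le
  have hR20 : 0 < R2 := by linarith
  have hR21 : R2 ≤ 1 := by linarith
  have hrR2 : r ≤ R2 := by linarith
  have hl0 : 0 ≤ Real.log (R2 / r) := Real.log_nonneg (by rw [le_div_iff₀ hr0]; linarith)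
  have hlogsplit : Real.log (R2 / r) ≤ Real.log (b / r) + 3 * s / b := by
    have e : R2 / r = (b / r) * (R2 / b) := by field_simp
    rw [e, Real.log_mul (by positivity) (by positivity)]
    have h1 : Real.log (R2 / b) ≤ R2 / b - 1 := Real.log_le_sub_one_of_pos (by positivity)
    have h2 : R2 / b - 1 ≤ 3 * s / b := by
      rw [div_sub_one hb0.ne', div_le_div_iff_of_pos_right hb0]
      linarith
    linarith
  have hlog1 : Real.log (R2 / r) ≤ Real.log (1 / r) :=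
    Real.log_le_log (by positivity) (div_le_div_of_nonneg_right hR21 hr0.le)
  have hκ'l : 2 * (κ + τ) * Real.log (R2 / r) ≤ 2 * κ * Real.log (b / r) + g / 8 := by
    have h1 : 2 * κ * Real.log (R2 / r) ≤ 2 * κ * (Real.log (b / r) + 3 * s / b) :=
      mul_le_mul_of_nonneg_left hlogsplit (by positivity)
    have h2 : 2 * κ * (3 * s / b) = 6 * κ * s / b := by ring
    have h3 : 2 * τ * Real.log (R2 / r) ≤ 2 * τ * Real.log (1 / r) := mul_le_mul_of_nonneg_left hlog1 (by positivity)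
    nlinarith
  refine ⟨b - τ, hbτ.le, by linarith, ?_⟩
  intro η hη W
  obtain ⟨Xe, hXe⟩ := lin_mul_exp (c := κ + τ) hε0 (K := 2) (by norm_num)
  filter_upwards [h3W G L a b hG ha0 ha1 hb0 (by linarith) hline hnz (ε / 2) (by positivity) (W + 1),
    h2 G L b hG hb0.le hnz (ε / 2) (by positivity) W, hnz τ hτ0 W, hlag τ hτ0 W,
    hG.lim.eventually_ge_atTop Xe, hG.lim.eventually_ge_atTop 1] with j hup htwo hz0 hpos hLX hL1
  intro w hw hwy hwy1 hzero
  obtain ⟨ℓ, hℓ⟩ : ∃ ℓ : ℝ, ℓ = L j := ⟨_, rfl⟩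
  rw [← hℓ] at hup htwo hpos hLX hL1
  have hℓ0 : 0 < ℓ := by linarith
  obtain ⟨p, hp⟩ : ∃ p : ℝ, p = w.re := ⟨_, rfl⟩
  obtain ⟨y, hy⟩ : ∃ y : ℝ, y = w.im := ⟨_, rfl⟩
  rw [← hp] at hw
  rw [← hy] at hwy hwy1
  have hw' : w = (p : ℂ) + (y : ℂ) * I := by rw [hp, hy]; exact (Complex.re_add_im w).symm
  rw [hw'] at hzero
  have hyb : y < b + τ := by
    by_contra hcon
    rw [not_lt] at hcon
    exact hz0 (p + y * I) (by simpa using hw) (by simpa using hcon) (by simpa using hwy1) hzero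
  have hy0 : 0 < y := by linarith
  have hW0 : 0 ≤ W := (abs_nonneg _).trans hw
  -- the head
  have hcirc : ∀ ζ : ℂ, |ζ.re| ≤ W + 1 → |ζ.im| ≤ r →
      ‖G j ζ‖ ≤ Real.exp (ℓ * (a + r * (1 - 2 * a / b) / 2 + ε / 2)) := by
    have main : ∀ ζ : ℂ, |ζ.re| ≤ W + 1 → |ζ.im| ≤ r → 0 ≤ ζ.im →
        ‖G j ζ‖ ≤ Real.exp (ℓ * (a + r * (1 - 2 * a / b) / 2 + ε / 2)) := by
      intro ζ h3 h4 h5
      rw [abs_of_nonneg h5] at h4
      refine (hup ζ h3 h5 (by linarith)).trans (Real.exp_le_exp.2 ?_)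
      apply mul_le_mul_of_nonneg_left _ hℓ0.le
      have e : ζ.im / 2 + a * (1 - ζ.im / b) = a + ζ.im * (1 - 2 * a / b) / 2 := by field_simp; ring
      have e2 : ζ.im * (1 - 2 * a / b) ≤ r * (1 - 2 * a / b) := mul_le_mul_of_nonneg_right h4 (by linarith)
      linarith
    intro ζ h3 h4
    rcases le_total 0 ζ.im with h5 | h5
    · exact main ζ h3 h4 h5
    · have h6 := main ((starRingEnd ℂ) ζ) (by simpa using h3) (by simpa using h4) (by simpa using h5)
      rwa [hG.re, Complex.norm_conj] at h6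
  have hhead : ∀ m : ℕ, |Lag (G j) p m| ≤ Real.exp (ℓ * (2 * a + r * (1 - 2 * a / b) + ε)) / r ^ (2 * m) := by
    intro m
    refine (Complex.abs_re_le_norm _).trans ?_
    refine Pool.Agent.Helper36.LQ.tc_le (Pool.Agent.Helper36.LQ.S_differentiable (hG.ent j) p) hr0 ?_ (2 * m)
    intro ζ hζ
    have hp' := abs_le.1 hw
    have hi := (Complex.abs_im_le_norm ζ).trans hζ.le
    have hr' := (Complex.abs_re_le_norm ζ).trans hζ.le
    have hi' := abs_le.1 hi
    rw [S, norm_mul]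
    have e1 := hcirc (p + I * ζ) (by
      have : ((p : ℂ) + I * ζ).re = p - ζ.im := by simp [sub_eq_add_neg]
      rw [this, abs_le]; constructor <;> linarith) (by simpa using hr')
    have e2 := hcirc (p - I * ζ) (by
      have : ((p : ℂ) - I * ζ).re = p + ζ.im := by simp
      rw [this, abs_le]; constructor <;> linarith) (by simpa using hr')
    refine (mul_le_mul e1 e2 (norm_nonneg _) (Real.exp_pos _).le).trans (le_of_eq ?_)
    rw [← Real.exp_add]
    congr 1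
    ring
  have two : ∀ Y : ℝ, b + ε / 2 ≤ Y → Y ≤ 1 →
      Real.exp (ℓ * (Y - ε)) ≤ ‖G j (p + Y * I)‖ ^ 2 ∧ ‖G j (p + Y * I)‖ ^ 2 ≤ Real.exp (ℓ * (Y + ε)) := by
    intro Y hY1 hY2
    obtain ⟨q1, q2⟩ := htwo (p + Y * I) (by simpa using hw) (by simpa using hY1) (by simp; linarith)
    have him : ((p : ℂ) + Y * I).im = Y := by simp
    rw [him] at q1 q2
    constructor
    · refine le_trans (le_of_eq ?_) (pow_le_pow_left₀ (Real.exp_pos _).le q1 2)
      rw [← Real.exp_nat_mul]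
      congr 1
      push_cast
      ring
    · refine (pow_le_pow_left₀ (norm_nonneg _) q2 2).trans (le_of_eq ?_)
      rw [← Real.exp_nat_mul]
      congr 1
      push_cast
      ring
  have s1 := lag_sum (hG.ent j) (hG.re j) p y
  rw [hzero, norm_zero, zero_pow (by norm_num)] at s1
  have hbig := hXe ℓ hLX
  refine core_abs (a := fun m => Lag (G j) p m) (b := y) (R := R) (R2 := R2) (r := r) (ℓ := ℓ) (μ' := 4 * s)
    (h := 2 * a + r * (1 - 2 * a / b) + ε) (κ' := κ + τ) (ε := ε) hy0 (by linarith) ?_ hR0 hr0 hrR2 hℓ0.le (by linarith)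
    (by linarith) (fun m hm => hpos p hw m hm) hhead s1 (lag_sum (hG.ent j) (hG.re j) p R2)
    (lag_sum (hG.ent j) (hG.re j) p R) (two R (by linarith) (by linarith)).1
    (two R2 (by linarith) hR21).2 (by linarith) (by linarith) hbig ?_
  · rw [← hR2e, mul_comm]
    exact mul_le_mul_of_nonneg_right (by linarith) hR20.le
  · have : 0 ≤ (κ + τ) * ℓ := by positivity
    linarith


/-- **zeros at distance at most `2 a + 2 κ`** -/
theorem noz_sharp (h2 : St_W2) (h3 : St_W3) {G : ℕ → ℂ → ℂ} {L : ℕ → ℝ} {a κ : ℝ} (hG : AG G L) (ha0 : 0 ≤ a)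
    (ha1 : a ≤ 1 / 2) (hκ : 0 ≤ κ) (hU : ALine a G L) (hL : ALag κ G L) : ANoZ (2 * a + 2 * κ) G := by
  set S : Set ℝ := {b : ℝ | 0 ≤ b ∧ ANoZ b G} with hS
  have hmem : (1 / 2 : ℝ) ∈ S := ⟨by norm_num, hG.noZ_half⟩
  have hbd : BddBelow S := ⟨0, fun b hb => hb.1⟩
  have hne : S.Nonempty := ⟨_, hmem⟩
  obtain ⟨B, hB⟩ : ∃ B : ℝ, B = sInf S := ⟨_, rfl⟩
  have hB0 : 0 ≤ B := by rw [hB]; exact le_csInf hne fun b hb => hb.1
  have hBb : B ≤ 1 / 2 := by rw [hB]; exact csInf_le hbd hmem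
  have hBN : ANoZ B G := by
    intro η hη R
    obtain ⟨b, hb, hbB⟩ := exists_lt_of_csInf_lt hne (show sInf S < B + η / 2 by rw [← hB]; linarith)
    filter_upwards [hb.2 (η / 2) (by linarith) R] with j hj w h1 h2 h3
    exact hj w h1 (by linarith) h3
  rcases le_or_gt B (2 * a + 2 * κ) with hcon | hcon
  · exact hBN.mono hcon
  exfalso
  have hBpos : 0 < B := lt_of_le_of_lt (by positivity) hcon
  have key : ∃ r : ℝ, 0 < r ∧ r ≤ B ∧ 2 * a + r * (1 - 2 * a / B) + 2 * κ * Real.log (B / r) < B := by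
    rcases hκ.lt_or_eq with hκ0 | hκ0
    · obtain ⟨x, hx⟩ : ∃ x : ℝ, x = (B - 2 * a) / (2 * κ) := ⟨_, rfl⟩
      have hx1 : 1 < x := by rw [hx, lt_div_iff₀ (by positivity)]; linarith
      have hx0 : 0 < x := by linarith
      have hBa : B - 2 * a = 2 * κ * x := by rw [hx]; field_simp
      refine ⟨B / x, by positivity, by rw [div_le_iff₀ hx0]; nlinarith, ?_⟩
      have e1 : B / (B / x) = x := by field_simp
      have e2 : B / x * (1 - 2 * a / B) = 2 * κ := by
        have : B / x * (1 - 2 * a / B) = (B - 2 * a) / x := by field_simp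
        rw [this, hBa]
        field_simp
      rw [e1, e2]
      have h4 : Real.log x < x - 1 := Real.log_lt_sub_one_of_pos hx0 hx1.ne'
      have h5 : 2 * κ * Real.log x < 2 * κ * (x - 1) := by gcongr
      linarith
    · refine ⟨B / 2, by positivity, by linarith, ?_⟩
      rw [← hκ0]
      have : B / 2 * (1 - 2 * a / B) = B / 2 - a := by field_simp
      rw [this]
      linarith
  obtain ⟨r, hr0, hrB, hrr⟩ := key
  obtain ⟨b', hb0, hb', hn⟩ := w4c h2 h3 hG ha0 ha1 hκ hr0 hrB hBb (by linarith) hrr hU hBN hL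
  have : sInf S ≤ b' := csInf_le hbd ⟨hb0, hn⟩
  rw [← hB] at this
  linarith

end Pool.Agent.Helper75.AL
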