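import Pool.Agent.Helper75.AL.Core
import Pool.Agent.Helper8.AL.W3

/-! A zero-free strip bounds the function on the line: `ANoZ b` gives `ALine (b / 2)`. -/

set_option autoImplicit false
set_option maxHeartbeats 1000000

open Complex MeasureTheory Filter Topology

namespace Pool.Agent.Helper75.AL

open Pool.Agent.Helper75.LQ Pool.Agent.Helper8.AL

theorem line_of_noz {G : ℕ → ℂ → ℂ} {L : ℕ → ℝ} {b : ℝ} (hAG : AG G L) (hb0 : 0 ≤ b) (hb1 : b ≤ 1 / 2)
    (hN : ANoZ b G) : ALine (b / 2) G L := by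
  have main : ∀ η > 0, η ≤ 1 → ∀ R : ℝ, ∀ᶠ j in atTop, ∀ s : ℝ, |s| ≤ R → ‖G j s‖ ≤ Real.exp (L j * (b / 2 + η)) := by
    intro η hη hη1 R
    obtain ⟨h, hh⟩ : ∃ h : ℝ, h = b + η / 2 := ⟨_, rfl⟩
    have hh0 : 0 < h := by linarith
    have hh1 : h ≤ 1 := by linarith
    obtain ⟨δ, hδ⟩ : ∃ δ : ℝ, δ = η / 4 := ⟨_, rfl⟩
    have hδ0 : 0 < δ := by rw [hδ]; positivity
    obtain ⟨T, hT⟩ : ∃ T : ℝ, T = 1 + 2 / δ := ⟨_, rfl⟩
    have h2δ : 0 < 2 / δ := by positivity
    have hT2 : 2 ≤ δ * (T ^ 2 - 1) := by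
      have e : δ * (T ^ 2 - 1) = 4 + 4 / δ := by rw [hT]; field_simp; ring
      have : 0 < 4 / δ := by positivity
      linarith
    obtain ⟨Q, hQ⟩ : ∃ Q : ℝ, Q = |R| + T := ⟨_, rfl⟩
    have hR0 := abs_nonneg R
    have hQ0 : 0 < Q := by linarith
    obtain ⟨η1, hη1'⟩ : ∃ η1 : ℝ, η1 = 1 / (2 * (1 + (Q + 1) ^ 2)) := ⟨_, rfl⟩
    have hη10 : 0 < η1 := by rw [hη1']; positivity
    have hη11 : η1 * (1 + (Q + 1) ^ 2) = 1 / 2 := by rw [hη1']; field_simp
    filter_upwards [hAG.ok η1 hη10 Q, w2 G L b hAG hb0 hN (η / 4) (by positivity) Q,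
      hAG.lim.eventually_ge_atTop 0] with j hj htop hL s hs
    have hs' := abs_le.1 (hs.trans (le_abs_self R))
    have top : ∀ z : ℂ, |z.re| ≤ Q → |z.im| = h → ‖G j z‖ ≤ Real.exp (L j * (h / 2 + η / 4)) := by
      intro z h1 h2
      rcases le_total 0 z.im with h3 | h3
      · rw [abs_of_nonneg h3] at h2
        have := (htop z h1 (by rw [h2, hh]; linarith) (by rw [h2]; linarith)).2
        rwa [h2] at this
      · rw [abs_of_nonpos h3] at h2
        have h4 := (htop ((starRingEnd ℂ) z) (by simpa using h1) (by simp; linarith) (by simp; linarith)).2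
        rw [hAG.re, Complex.norm_conj] at h4
        simpa [h2] using h4
    obtain ⟨F, hF⟩ : ∃ F : ℂ → ℂ, F = fun z => G j (z - h * I) *
        cexp (((-(L j * δ) : ℝ) : ℂ) * (z - h * I - s) ^ 2) := ⟨_, rfl⟩
    have hnorm : ∀ z : ℂ, ‖F z‖ = ‖G j (z - h * I)‖ *
        Real.exp (-(L j * δ) * ((z.re - s) ^ 2 - (z.im - h) ^ 2)) := by
      intro z
      rw [hF]
      simp only [norm_mul, Complex.norm_exp]
      congr 2
      rw [Complex.re_ofReal_mul]
      congr 1
      rw [pow_two, Complex.mul_re]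
      simp
      ring
    have hd : Differentiable ℂ F := by
      rw [hF]
      have h1 := hAG.ent j
      exact (h1.comp (differentiable_id.sub_const _)).mul (by fun_prop)
    have key : ‖F (s + h * I)‖ ≤ Real.exp (L j * (b / 2 + η)) := by
      have hedge : ∀ z : ℂ, s - T ≤ z.re → z.re ≤ s + T → (z.im = 0 ∨ z.im = 2 * h) →
          ‖F z‖ ≤ Real.exp (L j * (b / 2 + η)) := by
        intro z h1 h2 h3
        have e1 : (z - h * I).re = z.re := by simp
        have e2 : (z - h * I).im = z.im - h := by simp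
        have h4 : |(z - h * I).re| ≤ Q := by rw [e1, abs_le, hQ]; constructor <;> linarith
        have h5 : |(z - h * I).im| = h := by
          rw [e2]
          rcases h3 with h3 | h3 <;> rw [h3]
          · rw [zero_sub, abs_neg, abs_of_pos hh0]
          · rw [show 2 * h - h = h by ring, abs_of_pos hh0]
        have h6 := top _ h4 h5
        have h7 : (z.im - h) ^ 2 = h ^ 2 := by
          rcases h3 with h3 | h3 <;> rw [h3] <;> ring
        rw [hnorm, h7]
        have h8 : h ^ 2 ≤ 1 := by nlinarith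
        calc _ ≤ Real.exp (L j * (h / 2 + η / 4)) * Real.exp (L j * (η / 4)) := by
              refine mul_le_mul h6 (Real.exp_le_exp.2 ?_) (Real.exp_pos _).le (Real.exp_pos _).le
              have e3 : 0 ≤ (L j * δ) * (z.re - s) ^ 2 := by positivity
              have e4 : (L j * δ) * h ^ 2 ≤ (L j * δ) * 1 := mul_le_mul_of_nonneg_left h8 (by positivity)
              have e5 : L j * δ = L j * (η / 4) := by rw [hδ]
              linarith
          _ = Real.exp (L j * (h / 2 + η / 2)) := by rw [← Real.exp_add]; congr 1; ring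
          _ ≤ _ := by
              apply Real.exp_le_exp.2
              apply mul_le_mul_of_nonneg_left _ hL
              rw [hh]; linarith
      refine rect_max hd (p := s - T) (q := s + T) (b := 2 * h) (by linarith) (by linarith)
        (fun z h1 h2 h3 => hedge z h1 h2 (Or.inl h3)) (fun z h1 h2 h3 => hedge z h1 h2 (Or.inr h3)) ?_
        (by simp; linarith) (by simp; linarith) (by simp; linarith) (by simp; linarith)
      intro z h1 h2 h3
      have e1 : (z - h * I).re = z.re := by simp
      have e2 : (z - h * I).im = z.im - h := by simp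
      have hzi : |z.im - h| ≤ 1 := by rw [abs_le]; constructor <;> linarith
      have h5 : (z.re - s) ^ 2 = T ^ 2 := by
        rcases h3 with h | h <;> rw [h] <;> ring
      have h4 : |z.re| ≤ Q := by
        rw [abs_le, hQ]
        rcases h3 with h | h <;> rw [h] <;> constructor <;> linarith
      have h6 : ‖z - h * I‖ ≤ Q + 1 := by
        refine (Complex.norm_le_abs_re_add_abs_im _).trans ?_
        rw [e1, e2]
        linarith
      have h7 : ‖z - h * I‖ ^ 2 ≤ (Q + 1) ^ 2 := pow_le_pow_left₀ (norm_nonneg _) h6 2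
      have h8 : η1 * (1 + ‖z - h * I‖ ^ 2) ≤ 1 / 2 := by
        rw [← hη11]
        gcongr
      have h9 := hj.grow (z - h * I)
      rw [e2] at h9
      have h11 : (z.im - h) ^ 2 ≤ 1 := by rw [← sq_abs]; nlinarith [abs_nonneg (z.im - h)]
      rw [hnorm, h5]
      calc _ ≤ Real.exp (L j * (1 / 2 + |z.im - h| / 2 + η1 * (1 + ‖z - h * I‖ ^ 2))) *
            Real.exp (-(L j * δ) * (T ^ 2 - (z.im - h) ^ 2)) := by gcongr
        _ = Real.exp (L j * (1 / 2 + |z.im - h| / 2 + η1 * (1 + ‖z - h * I‖ ^ 2) -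
              δ * (T ^ 2 - (z.im - h) ^ 2))) := by
            rw [← Real.exp_add]
            congr 1
            ring
        _ ≤ _ := by
            apply Real.exp_le_exp.2
            apply mul_le_mul_of_nonneg_left _ hL
            have e1 : δ * (T ^ 2 - 1) ≤ δ * (T ^ 2 - (z.im - h) ^ 2) := by gcongr
            linarith
    have e0 : ‖F (s + h * I)‖ = ‖G j s‖ := by
      rw [hnorm]
      simp
    rwa [e0] at key
  intro η hη R
  rcases le_or_gt η 1 with h1 | h1
  · exact main η hη h1 R
  · filter_upwards [main 1 one_pos le_rfl R, hAG.lim.eventually_ge_atTop 0] with j hj hL s hs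
    refine (hj s hs).trans (Real.exp_le_exp.2 (mul_le_mul_of_nonneg_left (by linarith) hL))

end Pool.Agent.Helper75.AL
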