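import Pool.Agent.Helper75.AL.Fin
import Pool.Agent.Helper75.LQ.LocAll
import Pool.Agent.Helper8.AL.W2
import Pool.Agent.Helper8.AL.W3
import Pool.Agent.Helper85.AL.W4
import Pool.Agent.Helper59.AL.W6

/-! The abstract local law. -/

set_option autoImplicit false

namespace Pool.Agent.Helper75.AL

theorem al_all : St_AL :=
  al_of (Pool.Agent.Helper85.AL.w4 Pool.Agent.Helper8.AL.w1 Pool.Agent.Helper8.AL.w2)
    (Pool.Agent.Helper59.AL.w6 Pool.Agent.Helper8.AL.w1 Pool.Agent.Helper8.AL.w2 Pool.Agent.Helper8.AL.w3)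
    (Pool.Agent.Helper82.LQ.st_y7 (LQ.finl_all' LQ.ld3 LQ.ld4))

end Pool.Agent.Helper75.AL
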