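import Pool.Agent.Helper75.AL.Zeta
import Pool.Agent.Helper75.LQ.Last

/-! The sharp form of the law for the zeros of the zeta function. -/

set_option autoImplicit false
set_option maxHeartbeats 1000000

open Complex MeasureTheory Filter Topology

namespace Pool.Agent.Helper75.AL

open Pool.Agent.Helper75.LQ Pool.Agent.Helper75.JE Pool.Agent.Helper59.LQ
open Pool.Agent.Helper85.LG (xi Pg xi_diff xi_one_sub xi_conj Lm Pg_ne xi_eq zeta_two_sided)

/-- zeros at distance at most `2 a + 2 κ` near the height `x` -/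
theorem sharp_loc {a κ ε : ℝ} (ha0 : 0 ≤ a) (ha1 : a ≤ 1 / 2) (hκ : 0 ≤ κ) (hε : 0 < ε) :
    ∃ R : ℝ, ∀ x : ℝ, R ≤ x → LagX κ x R → LineB a x R → NoZ (2 * a + 2 * κ + ε) x 1 := by
  by_contra hcon
  push Not at hcon
  choose x hx1 hx2 hx3 hx4 using fun j : ℕ => hcon (j + 3)
  have hx : Tendsto x atTop atTop :=
    tendsto_atTop_mono (fun n => (le_add_of_nonneg_right (by norm_num : (0:ℝ) ≤ 3)).trans (hx1 n))
      tendsto_natCast_atTop_atTop
  have hx0 : ∀ j, 3 ≤ x j := fun j => by have := hx1 j; have := j.cast_nonneg (α := ℝ); linarith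
  have hAG := ag_zeta hx
  have hlim := hAG.lim
  have hline : ALine a (fun j => gl (x j)) (fun j => Real.log (x j)) := by
    intro η hη R
    obtain ⟨Cu, Xu, hCu, hXu, hu⟩ := xi_box R 10 (by norm_num)
    filter_upwards [hx.eventually_ge_atTop Xu, hlim.eventually_ge_atTop (Cu / η), eventually_ge_atTop ⌈R⌉₊]
      with j f1 f2 f3 s hs
    have hjR : R ≤ (j : ℝ) := (Nat.le_ceil _).trans (by exact_mod_cast f3)
    rw [div_le_iff₀ hη] at f2
    have hxj : 0 < x j := by linarith [hx0 j]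
    have hN := Nx_pos hxj
    rw [norm_gl hxj, div_le_iff₀ hN]
    have u := hu (x j) f1 s 0 hs le_rfl (by norm_num)
    simp only [Complex.ofReal_im, Complex.ofReal_re, abs_zero]
    refine u.trans ?_
    have z1 := hx3 j (x j + s) (by simp; linarith)
    have e1 : (((1 / 2 + 0 : ℝ) : ℂ) + ((x j + s : ℝ) : ℂ) * I) = 1 / 2 + ((x j + s : ℝ) : ℂ) * I := by
      push_cast; ring
    rw [e1]
    have : Real.exp (Cu + 0 / 2 * Real.log (x j)) * ‖riemannZeta (1 / 2 + ((x j + s : ℝ) : ℂ) * I)‖ ≤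
        Real.exp (Real.log (x j) * (a + η)) := by
      refine (mul_le_mul_of_nonneg_left z1 (Real.exp_pos _).le).trans ?_
      rw [Real.rpow_def_of_pos hxj, ← Real.exp_add]
      apply Real.exp_le_exp.2
      linarith
    calc Nx (x j) * Real.exp (Cu + 0 / 2 * Real.log (x j)) * ‖riemannZeta (1 / 2 + ((x j + s : ℝ) : ℂ) * I)‖ =
          (Real.exp (Cu + 0 / 2 * Real.log (x j)) * ‖riemannZeta (1 / 2 + ((x j + s : ℝ) : ℂ) * I)‖) * Nx (x j) := by
          ring
      _ ≤ _ := mul_le_mul_of_nonneg_right this hN.le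
  have hlag : ALag κ (fun j => gl (x j)) (fun j => Real.log (x j)) := by
    intro η hη R
    filter_upwards [eventually_ge_atTop ⌈R⌉₊] with j f3 s hs m hm
    have hjR : R ≤ (j : ℝ) := (Nat.le_ceil _).trans (by exact_mod_cast f3)
    rw [gl_Lag]
    have hl0 : 0 ≤ Real.log (x j) := Real.log_nonneg (by linarith [hx0 j])
    have := hx2 j (x j + s) (by simp; linarith) m (le_trans (by nlinarith) hm)
    positivity
  have hnz := noz_sharp Pool.Agent.Helper8.AL.w2 Pool.Agent.Helper8.AL.w3 hAG ha0 ha1 hκ hline hlag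
  obtain ⟨j, hj⟩ := (hnz ε hε 1).exists
  refine hx4 j fun s hs hsx => ?_
  by_contra hcon
  rw [not_le] at hcon
  have hs1 : s.re ≤ 1 := by
    by_contra h1
    rw [not_le] at h1
    exact riemannZeta_ne_zero_of_one_lt_re h1 hs
  have hxj : 0 < x j := by linarith [hx0 j]
  have hN := Nx_pos hxj
  have hb0 : 0 < s.re - 1 / 2 := by linarith
  refine hj (((s.im - x j : ℝ) : ℂ) + ((s.re - 1 / 2 : ℝ) : ℂ) * I) (by simpa using hsx) (by simp; linarith)
    (by simp; linarith) ?_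
  rw [← norm_eq_zero, norm_gl hxj]
  obtain ⟨Cu, Xu, hCu, hXu, hu⟩ := xi_box 1 10 (by norm_num)
  have e1 : (1 / 2 + ((|(((s.im - x j : ℝ) : ℂ) + ((s.re - 1 / 2 : ℝ) : ℂ) * I).im| : ℝ) : ℂ) + ((x j : ℂ) +
      (((((s.im - x j : ℝ) : ℂ) + ((s.re - 1 / 2 : ℝ) : ℂ) * I).re : ℝ) : ℂ)) * I : ℂ) = s := by
    apply Complex.ext
    · have : (2⁻¹ : ℝ) + |s.re - 2⁻¹| = s.re := by
        rw [abs_of_pos (by linarith)]; ring
      simpa using this
    · simp
  rw [e1, xi_eq (by linarith), (Pool.Agent.Helper85.LG.Zt_zero_iff (by linarith)).2 hs]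
  simp

lemma lineB_of_upA {a η R : ℝ} (ha : 0 ≤ a) (hU : UpA a) (hη : 0 < η) : ∃ X : ℝ, ∀ x : ℝ, X ≤ x → LineB (a + η) x R := by
  obtain ⟨C, hC⟩ := hU (η / 4) (by linarith)
  obtain ⟨X, hX⟩ := cmp (a := a + η / 2) (a' := a + η) (by positivity) (by linarith) R
  have h1 : Tendsto (fun y : ℝ => y ^ (η / 4)) atTop atTop := tendsto_rpow_atTop (by linarith)
  obtain ⟨T, hT⟩ := eventually_atTop.1 (h1.eventually_ge_atTop C)
  refine ⟨max X (T + |R|), fun x hx t ht => ?_⟩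
  have f1 := (le_max_left _ _).trans hx
  have f2 := (le_max_right _ _).trans hx
  have g := hX x f1 t ht
  have h2 := hT t (by linarith [(abs_le.1 ht).1, le_abs_self R])
  have h3 : 0 ≤ t ^ (a + η / 4) := Real.rpow_nonneg (by linarith [g.2.1]) _
  calc ‖riemannZeta (1 / 2 + t * I)‖ ≤ C * t ^ (a + η / 4) := hC t g.2.1
    _ ≤ t ^ (η / 4) * t ^ (a + η / 4) := by gcongr
    _ = t ^ (a + η / 2) := by rw [← Real.rpow_add (by linarith [g.2.1])]; ring_nf
    _ ≤ _ := g.2.2.2.2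

lemma lagX_of_lagC {κ η R : ℝ} (hκ : 0 ≤ κ) (hL : ∀ c > κ, LagC c) (hη : 0 < η) :
    ∃ X : ℝ, ∀ x : ℝ, X ≤ x → LagX (κ + η) x R := by
  obtain ⟨X1, hX1⟩ := hL (κ + η / 2) (by linarith)
  obtain ⟨X2, hX2⟩ := cmp (a := κ + η / 2) (a' := κ + η) (by positivity) (by linarith) R
  refine ⟨max X1 X2 + |R|, fun x hx x' hx' m hm => ?_⟩
  have hRa := le_abs_self R
  have b2 : X1 + |R| ≤ x := by linarith [le_max_left X1 X2]
  have b3 : X2 + |R| ≤ x := by linarith [le_max_right X1 X2]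
  have hx'' := abs_le.1 hx'
  refine hX1 x' (by linarith) m (le_trans ?_ hm)
  exact (hX2 x' (by linarith) x (by rw [abs_sub_comm]; exact hx')).2.2.2.1

/-- **`Θ - 1/2 ≤ 2 μ(1/2) + 2 κ*`** -/
theorem sharp_glob {a κ : ℝ} (ha : 0 ≤ a) (hκ : 0 ≤ κ) (hU : UpA a) (hL : ∀ c > κ, LagC c) :
    ∀ ε > 0, Few (1 / 2 + (2 * a + 2 * κ + ε)) := by
  intro ε hε
  rcases le_or_gt (1 / 2) (2 * a + 2 * κ + ε) with hb | hb
  · exact few_one.mono (by linarith)
  obtain ⟨R, hR⟩ := sharp_loc (a := a + ε / 16) (κ := κ + ε / 16) (ε := ε / 4) (by linarith) (by linarith) (by linarith)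
    (by linarith)
  obtain ⟨X1, hX1⟩ := lineB_of_upA (R := R) ha hU (η := ε / 16) (by linarith)
  obtain ⟨X2, hX2⟩ := lagX_of_lagC (R := R) hκ hL (η := ε / 16) (by linarith)
  have : Few (1 / 2 + (2 * (a + ε / 16) + 2 * (κ + ε / 16) + ε / 4)) :=
    few_of_noZ (X := max R (max X1 X2)) fun x hx => hR x ((le_max_left _ _).trans hx)
      (hX2 x (((le_max_right _ _).trans (le_max_right _ _)).trans hx))
      (hX1 x (((le_max_left _ _).trans (le_max_right _ _)).trans hx))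
  exact this.mono (by linarith)

end Pool.Agent.Helper75.AL
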