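import Pool.Agent.Helper75.AL.Line
import Pool.Agent.Helper75.AL.ZetaLaw

/-! A zero-free box bounds the zeta function on the critical line. -/

set_option autoImplicit false
set_option maxHeartbeats 1000000

open Complex MeasureTheory Filter Topology

namespace Pool.Agent.Helper75.AL

open Pool.Agent.Helper75.LQ Pool.Agent.Helper75.JE Pool.Agent.Helper59.LQ
open Pool.Agent.Helper85.LG (xi Pg xi_diff xi_one_sub xi_conj Lm Pg_ne xi_eq zeta_two_sided)

/-- a zero-free box of width `B` bounds the zeta function by `x^(B/2 + ε)` -/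
theorem line_loc {B ε : ℝ} (hB0 : 0 ≤ B) (hB1 : B ≤ 1 / 2) (hε : 0 < ε) :
    ∃ R : ℝ, ∀ x : ℝ, R ≤ x → NoZ B x R → LineB (B / 2 + ε) x 1 := by
  by_contra hcon
  push Not at hcon
  choose x hx1 hx2 hx3 using fun j : ℕ => hcon (j + 3)
  have hx : Tendsto x atTop atTop :=
    tendsto_atTop_mono (fun n => (le_add_of_nonneg_right (by norm_num : (0:ℝ) ≤ 3)).trans (hx1 n))
      tendsto_natCast_atTop_atTop
  have hx0 : ∀ j, 3 ≤ x j := fun j => by have := hx1 j; have := j.cast_nonneg (α := ℝ); linarith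
  have hAG := ag_zeta hx
  have hlim := hAG.lim
  have hN : ANoZ B (fun j => gl (x j)) := by
    intro η hη R
    filter_upwards [eventually_ge_atTop ⌈R⌉₊] with j f3 w h1 h2 h3 h4
    have hjR : R ≤ (j : ℝ) := (Nat.le_ceil _).trans (by exact_mod_cast f3)
    have hxj : 0 < x j := by linarith [hx0 j]
    have hNx := Nx_pos hxj
    have h5 : 0 ≤ w.im := by linarith
    rw [← norm_eq_zero, norm_gl hxj, div_eq_zero_iff] at h4
    rcases h4 with h4 | h4
    · rw [norm_eq_zero, abs_of_nonneg h5] at h4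
      obtain ⟨z, hz⟩ : ∃ z : ℂ, z = 1 / 2 + (w.im : ℂ) + ((x j : ℂ) + (w.re : ℂ)) * I := ⟨_, rfl⟩
      have zr : z.re = 1 / 2 + w.im := by rw [hz]; simp
      have zi : z.im = x j + w.re := by rw [hz]; simp
      rw [← hz, xi_eq (by linarith)] at h4
      have h6 : riemannZeta z = 0 := by
        refine (Pool.Agent.Helper85.LG.Zt_zero_iff (by linarith)).1 ?_
        rcases mul_eq_zero.1 h4 with h | h
        · exact h
        · exact absurd h (Pg_ne (by linarith))
      have := hx2 j z h6 (by rw [zi]; simpa using by linarith)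
      linarith
    · linarith
  have hline := line_of_noz hAG hB0 hB1 hN
  obtain ⟨Cl, Xl, hCl, hXl, hl⟩ := xi_box_lo 1 10 (by norm_num)
  obtain ⟨j, f1, f2, f3⟩ := ((hline (ε / 2) (by linarith) 1).and ((hx.eventually_ge_atTop Xl).and
    (hlim.eventually_ge_atTop (2 * Cl / ε)))).exists
  refine hx3 j fun t ht => ?_
  have hxj : 0 < x j := by linarith [hx0 j]
  have hNx := Nx_pos hxj
  have g1 := f1 (t - x j) ht
  have g2 := hl (x j) f2 (t - x j) 0 ht le_rfl (by norm_num)
  rw [norm_gl hxj, div_le_iff₀ hNx] at g1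
  simp only [Complex.ofReal_im, Complex.ofReal_re, abs_zero] at g1
  have g3 := g2.trans g1
  rw [div_le_iff₀ hε] at f3
  have e1 : (((1 / 2 + 0 : ℝ) : ℂ) + ((x j + (t - x j) : ℝ) : ℂ) * I) = 1 / 2 + (t : ℂ) * I := by
    push_cast; ring
  rw [e1] at g3
  have g4 : Real.exp (-Cl + 0 / 2 * Real.log (x j)) * ‖riemannZeta (1 / 2 + (t : ℂ) * I)‖ ≤
      Real.exp (Real.log (x j) * (B / 2 + ε / 2)) := by
    refine le_of_mul_le_mul_left ?_ hNx
    calc _ = Nx (x j) * Real.exp (-Cl + 0 / 2 * Real.log (x j)) * ‖riemannZeta (1 / 2 + (t : ℂ) * I)‖ := by ring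
      _ ≤ _ := g3.trans (le_of_eq (mul_comm _ _))
  rw [zero_div, zero_mul, add_zero, Real.exp_neg, inv_mul_le_iff₀ (Real.exp_pos _), ← Real.exp_add] at g4
  refine g4.trans ?_
  rw [Real.rpow_def_of_pos hxj]
  apply Real.exp_le_exp.2
  linarith

/-- global form -/
theorem line_glob {b : ℝ} (hb0 : 0 ≤ b) (hb1 : b ≤ 1 / 2) (h : ∀ ε > 0, Few (1 / 2 + (b + ε))) : UpA (b / 2) := by
  intro ε hε
  obtain ⟨B, hB0, hB1, hB2, T, hT⟩ : ∃ B : ℝ, 0 ≤ B ∧ B ≤ 1 / 2 ∧ B ≤ b + ε / 2 ∧ Few (1 / 2 + B) := by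
    rcases le_or_gt (1 / 2) b with hb | hb
    · refine ⟨1 / 2, by norm_num, le_rfl, by linarith, 0, fun s hs _ => ?_⟩
      by_contra hcon
      rw [not_le] at hcon
      exact riemannZeta_ne_zero_of_one_lt_re (by linarith) hs
    · obtain ⟨δ, hδ⟩ : ∃ δ : ℝ, δ = min (ε / 2) (1 / 2 - b) := ⟨_, rfl⟩
      have hδ0 : 0 < δ := by rw [hδ]; exact lt_min (by linarith) (by linarith)
      have hδε : δ ≤ ε / 2 := by rw [hδ]; exact min_le_left _ _
      have hδb : δ ≤ 1 / 2 - b := by rw [hδ]; exact min_le_right _ _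
      exact ⟨b + δ, by linarith, by linarith, by linarith, h δ hδ0⟩
  obtain ⟨R, hR⟩ := line_loc (B := B) (ε := ε / 2) hB0 hB1 (by linarith)
  refine Pool.Agent.Helper68.LQ.glue (D := 1) (T := max R (max 1 (T + |R|))) (by positivity) zero_le_one fun t ht ht1 => ?_
  rw [one_mul]
  have h1 := (le_max_left _ _).trans ht
  have h2 := ((le_max_left _ _).trans (le_max_right _ _)).trans ht
  have h3 := ((le_max_right _ _).trans (le_max_right _ _)).trans ht
  have h4 := hR t h1 (by
    intro s hs hst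
    have h5 := abs_le.1 hst
    have h6 : T ≤ |s.im| := by
      have := le_abs_self s.im
      have := le_abs_self R
      linarith
    exact hT s hs h6) t (by simp)
  refine h4.trans ?_
  apply Real.rpow_le_rpow_of_exponent_le h2
  linarith

end Pool.Agent.Helper75.AL
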