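import Pool.Agent.Helper75.AL.Sts

/-! The abstract local law from its packages. -/

set_option autoImplicit false
set_option maxHeartbeats 1000000

open Complex MeasureTheory Filter Topology

namespace Pool.Agent.Helper75.AL

open Pool.Agent.Helper75.LQ

variable {G : ℕ → ℂ → ℂ} {L : ℕ → ℝ}

lemma Ok.mono {η η' R R' : ℝ} {g : ℂ → ℂ} {l : ℝ} (h : Ok η R g l) (hη : η ≤ η') (hR : R' ≤ R) (hl : 0 ≤ l) :
    Ok η' R' g l := by
  refine ⟨fun w => (h.grow w).trans (Real.exp_le_exp.2 (mul_le_mul_of_nonneg_left ?_ hl)), fun w h1 h2 h3 => ?_⟩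
  · have : η * (1 + ‖w‖ ^ 2) ≤ η' * (1 + ‖w‖ ^ 2) := by gcongr
    linarith
  · obtain ⟨a, b⟩ := h.side w (by linarith) (by linarith) h3
    refine ⟨le_trans (Real.exp_le_exp.2 (mul_le_mul_of_nonneg_left (by linarith) hl)) a,
      b.trans (Real.exp_le_exp.2 (mul_le_mul_of_nonneg_left (by linarith) hl))⟩

/-- horizontal shift -/
lemma Ok.shift {η η' R R' R0 t : ℝ} {g : ℂ → ℂ} {l : ℝ} (h : Ok η R g l) (ht : |t| ≤ R0) (hη0 : 0 ≤ η)
    (hη : η * (2 + 2 * R0 ^ 2) ≤ η') (hR : R' + R0 ≤ R) (hl : 0 ≤ l) : Ok η' R' (fun w => g (w + t)) l := by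
  have hηη : η ≤ η' := by nlinarith [sq_nonneg R0]
  refine ⟨fun w => (h.grow (w + t)).trans (Real.exp_le_exp.2 (mul_le_mul_of_nonneg_left ?_ hl)),
    fun w h1 h2 h3 => ?_⟩
  · have e1 : (w + (t : ℂ)).im = w.im := by simp
    rw [e1]
    have e2 : ‖w + (t : ℂ)‖ ^ 2 ≤ 2 * ‖w‖ ^ 2 + 2 * R0 ^ 2 := by
      have a1 := norm_add_le w (t : ℂ)
      rw [Complex.norm_real, Real.norm_eq_abs] at a1
      have a2 : ‖w + (t : ℂ)‖ ≤ ‖w‖ + R0 := by linarith
      have a3 : ‖w + (t : ℂ)‖ ^ 2 ≤ (‖w‖ + R0) ^ 2 := by gcongr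
      nlinarith [sq_nonneg (‖w‖ - R0)]
    have e3 : η * (1 + ‖w + (t : ℂ)‖ ^ 2) ≤ η * (2 + 2 * R0 ^ 2) * (1 + ‖w‖ ^ 2) := by
      rw [mul_assoc]
      apply mul_le_mul_of_nonneg_left _ hη0
      nlinarith [sq_nonneg R0, sq_nonneg ‖w‖, mul_nonneg (sq_nonneg R0) (sq_nonneg ‖w‖)]
    have e4 : η * (2 + 2 * R0 ^ 2) * (1 + ‖w‖ ^ 2) ≤ η' * (1 + ‖w‖ ^ 2) := by gcongr
    linarith
  · have e1 : (w + (t : ℂ)).im = w.im := by simp
    have e2 : (w + (t : ℂ)).re = w.re + t := by simp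
    obtain ⟨a, b⟩ := h.side (w + t) (by rw [e2]; exact (abs_add_le _ _).trans (by linarith))
      (by rw [e1]; linarith) (by rw [e1]; exact h3)
    rw [e1] at a b
    refine ⟨le_trans (Real.exp_le_exp.2 (mul_le_mul_of_nonneg_left (by linarith) hl)) a,
      b.trans (Real.exp_le_exp.2 (mul_le_mul_of_nonneg_left (by linarith) hl))⟩

lemma Lag_shift (g : ℂ → ℂ) (t s : ℝ) (m : ℕ) : Lag (fun w => g (w + t)) s m = Lag g (s + t) m := by
  unfold Lag
  have : S (fun w => g (w + t)) s = S g ((s + t : ℝ) : ℂ) := by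
    funext ζ
    unfold S
    push_cast
    ring_nf
  rw [this]

lemma ALine.mono {a a' : ℝ} (h : ALine a G L) (ha : a ≤ a') (hL : Tendsto L atTop atTop) : ALine a' G L := by
  intro η hη R
  filter_upwards [h η hη R, hL.eventually_ge_atTop 0] with j hj h0 s hs
  exact (hj s hs).trans (Real.exp_le_exp.2 (mul_le_mul_of_nonneg_left (by linarith) h0))

lemma ANoZ.mono {b b' : ℝ} (h : ANoZ b G) (hb : b ≤ b') : ANoZ b' G := by
  intro η hη R
  filter_upwards [h η hη R] with j hj w h1 h2 h3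
  exact hj w h1 (by linarith) h3

lemma AG.noZ_half (h : AG G L) : ANoZ (1 / 2) G := by
  intro η hη R
  filter_upwards [h.ok η hη R] with j hj w h1 h2 h3 h0
  have := (hj.side w h1 h2 (by linarith)).1
  rw [h0, norm_zero] at this
  exact absurd this (not_le.2 (Real.exp_pos _))

lemma AG.line_half (h : AG G L) : ALine (1 / 2) G L := by
  intro η hη R
  obtain ⟨e, he⟩ : ∃ e : ℝ, e = η / (1 + R ^ 2) := ⟨_, rfl⟩
  have he0 : 0 < e := by rw [he]; positivity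
  filter_upwards [h.ok e he0 0, h.lim.eventually_ge_atTop 0] with j hj h0 s hs
  refine (hj.grow s).trans (Real.exp_le_exp.2 (mul_le_mul_of_nonneg_left ?_ h0))
  have h1 : ‖(s : ℂ)‖ ^ 2 ≤ R ^ 2 := by
    rw [Complex.norm_real, Real.norm_eq_abs]
    gcongr
  have h2 : e * (1 + ‖(s : ℂ)‖ ^ 2) ≤ η := by
    calc e * (1 + ‖(s : ℂ)‖ ^ 2) ≤ e * (1 + R ^ 2) := by gcongr
      _ = η := by rw [he]; field_simp
  simp only [Complex.ofReal_im, abs_zero]
  linarith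

/-- zeros, from the core of the argument -/
theorem noz_core (hW4 : St_W4) {a κ b0 b1 : ℝ} (h : AG G L) (ha0 : 0 ≤ a) (ha1 : a ≤ 1 / 2) (hκ : 0 ≤ κ)
    (hb1 : 0 ≤ b1) (hb2 : b1 ≤ 1 / 2) (hU : ALine a G L) (hL : ALag κ G L)
    (hN : ANoZ b1 G) (hc : ∀ b : ℝ, b0 < b → b ≤ b1 → ∃ r : ℝ, 0 < r ∧ r ≤ b ∧ 2 * a + r + 2 * κ * Real.log (b / r) < b) :
    ANoZ b0 G := by
  set S : Set ℝ := {b : ℝ | 0 ≤ b ∧ ANoZ b G} with hS
  have hmem : b1 ∈ S := ⟨hb1, hN⟩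
  have hbd : BddBelow S := ⟨0, fun b hb => hb.1⟩
  have hne : S.Nonempty := ⟨_, hmem⟩
  obtain ⟨B, hB⟩ : ∃ B : ℝ, B = sInf S := ⟨_, rfl⟩
  have hB0 : 0 ≤ B := by rw [hB]; exact le_csInf hne fun b hb => hb.1
  have hBb : B ≤ b1 := by rw [hB]; exact csInf_le hbd hmem
  have hBN : ANoZ B G := by
    intro η hη R
    obtain ⟨b, hb, hbB⟩ := exists_lt_of_csInf_lt hne (show sInf S < B + η / 2 by rw [← hB]; linarith)
    filter_upwards [hb.2 (η / 2) (by linarith) R] with j hj w h1 h2 h3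
    exact hj w h1 (by linarith) h3
  rcases le_or_gt B b0 with hcon | hcon
  · exact hBN.mono hcon
  exfalso
  obtain ⟨r, hr0, hrB, hrr⟩ := hc B hcon hBb
  obtain ⟨b', hb0, hb', hn⟩ := hW4 G L a κ r B h ha0 ha1 hκ hr0 hrB (hBb.trans hb2) hrr hU hBN hL
  have : sInf S ≤ b' := csInf_le hbd ⟨hb0, hn⟩
  rw [← hB] at this
  linarith

theorem noz_four (hW4 : St_W4) {a κ : ℝ} (h : AG G L) (ha0 : 0 ≤ a) (ha1 : a ≤ 1 / 2) (hκ : 0 ≤ κ)
    (hU : ALine a G L) (hL : ALag κ G L) : ANoZ (4 * a + 16 * κ) G := by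
  refine noz_core hW4 h ha0 ha1 hκ (by norm_num) le_rfl hU hL h.noZ_half ?_
  intro B hB _
  have hBpos : 0 < B := lt_of_le_of_lt (by positivity) hB
  refine ⟨B / 8, by positivity, by linarith, ?_⟩
  have hlog : Real.log (B / (B / 8)) ≤ 21 / 10 := by
    have e : B / (B / 8) = 2 ^ 3 := by field_simp; norm_num
    rw [e, Real.log_pow]
    have := Real.log_two_lt_d9
    push_cast
    linarith
  have : 2 * κ * Real.log (B / (B / 8)) ≤ 2 * κ * (21 / 10) := by gcongr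
  linarith

theorem noz_two (hW4 : St_W4) {ρ : ℝ} (hρ : 0 < ρ) : ∃ ρ' : ℝ, 0 < ρ' ∧ ρ' ≤ ρ ∧ ∀ (A κ : ℝ) (G : ℕ → ℂ → ℂ)
    (L : ℕ → ℝ), 0 < A → A ≤ 1 / 2 → 0 ≤ κ → κ ≤ ρ' * A → AG G L → ALine A G L → ALag κ G L →
      ANoZ (2 * A * (1 + ρ)) G := by
  obtain ⟨ρ1, hρ1⟩ : ∃ ρ1 : ℝ, ρ1 = min ρ 1 := ⟨_, rfl⟩
  have hp1 : 0 < ρ1 := by rw [hρ1]; exact lt_min hρ one_pos
  have hp2 : ρ1 ≤ 1 := by rw [hρ1]; exact min_le_right _ _
  have hp3 : ρ1 ≤ ρ := by rw [hρ1]; exact min_le_left _ _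
  have hlog : 0 < Real.log (20 / ρ1) := Real.log_pos (by rw [lt_div_iff₀ hp1]; linarith)
  refine ⟨min ρ1 (ρ1 / (4 * Real.log (20 / ρ1))), by positivity, (min_le_left _ _).trans hp3, ?_⟩
  intro A κ G L hA0 hA1 hκ hκA h hU hL
  have hk1 : κ ≤ ρ1 * A := hκA.trans (by gcongr; exact min_le_left _ _)
  have hk2 : κ ≤ ρ1 / (4 * Real.log (20 / ρ1)) * A := hκA.trans (by gcongr; exact min_le_right _ _)
  have h4 := noz_four hW4 h hA0.le hA1 hκ hU hL
  refine noz_core hW4 h hA0.le hA1 hκ (b1 := min (4 * A + 16 * κ) (1 / 2)) (by positivity)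
    (min_le_right _ _) hU hL ?_ ?_
  · rcases le_total (4 * A + 16 * κ) (1 / 2) with h' | h'
    · rw [min_eq_left h']; exact h4
    · rw [min_eq_right h']; exact h.noZ_half
  intro B hB hB2
  have hB3 : B ≤ 20 * A := by
    have := hB2.trans (min_le_left _ _)
    nlinarith
  have hBA : 2 * A * (1 + ρ1) < B := lt_of_le_of_lt (by gcongr) hB
  have hBpos : 0 < B := lt_of_le_of_lt (by positivity) hBA
  have hr1 : ρ1 * A ≤ A := by nlinarith
  refine ⟨ρ1 * A, by positivity, by nlinarith [mul_pos hp1 hA0], ?_⟩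
  have h5 : Real.log (B / (ρ1 * A)) ≤ Real.log (20 / ρ1) := by
    apply Real.log_le_log (by positivity)
    rw [div_le_div_iff₀ (by positivity) hp1]
    nlinarith
  have h6 : 2 * κ * Real.log (B / (ρ1 * A)) ≤ 2 * (ρ1 / (4 * Real.log (20 / ρ1)) * A) * Real.log (20 / ρ1) := by
    have : 2 * κ * Real.log (B / (ρ1 * A)) ≤ 2 * κ * Real.log (20 / ρ1) := by gcongr
    refine this.trans ?_
    gcongr
  have h7 : 2 * (ρ1 / (4 * Real.log (20 / ρ1)) * A) * Real.log (20 / ρ1) = ρ1 * A / 2 := by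
    field_simp
    ring
  rw [h7] at h6
  have : 0 < ρ1 * A := by positivity
  linarith

/-- the choice of the points -/
theorem select {A κ : ℝ} (hA0 : 0 < A) (h : AG G L)
    (hU : ALine A G L) (hnU : ∀ d : ℝ, 0 < d → d ≤ A → ¬ ALine (A - d) G L) (hL : ALag κ G L) :
    ∃ (G' : ℕ → ℂ → ℂ) (L' : ℕ → ℝ), AG G' L' ∧ ALine A G' L' ∧ ALag κ G' L' ∧
      ∀ δ > 0, ∀ᶠ j in atTop, Real.exp (L' j * (A - δ)) ≤ ‖G' j 0‖ := by
  have key : ∀ n : ℕ, ∃ (j : ℕ) (t : ℝ), (n : ℝ) ≤ L j ∧ Ok (1 / (n + 1)) n (fun w => G j (w + t)) (L j) ∧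
      (∀ s : ℝ, |s| ≤ n → ‖G j (s + t)‖ ≤ Real.exp (L j * (A + 1 / (n + 1)))) ∧
      (∀ s : ℝ, |s| ≤ n → ∀ m : ℕ, (κ + 1 / (n + 1)) * L j ≤ m → 0 ≤ Lag (G j) (s + t) m) ∧
      Real.exp (L j * (A - 1 / (n + 1))) ≤ ‖G j t‖ := by
    intro n
    have hn : 0 < 1 / ((n : ℝ) + 1) := by positivity
    obtain ⟨d, hd⟩ : ∃ d : ℝ, d = min (1 / ((n : ℝ) + 1)) A := ⟨_, rfl⟩
    have hd0 : 0 < d := by rw [hd]; exact lt_min hn hA0
    have hdA : d ≤ A := by rw [hd]; exact min_le_right _ _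
    have hdn : d ≤ 1 / ((n : ℝ) + 1) := by rw [hd]; exact min_le_left _ _
    have h1 := hnU d hd0 hdA
    unfold ALine at h1
    push Not at h1
    obtain ⟨η, hη, R, hR⟩ := h1
    have hη2 : 0 < 1 / ((n : ℝ) + 1) / (2 + 2 * |R| ^ 2) := by positivity
    have hev := (h.ok _ hη2 (n + |R|)).and ((hU _ hn (n + |R|)).and ((hL _ hn (n + |R|)).and
      (h.lim.eventually_ge_atTop (n : ℝ))))
    obtain ⟨j, hj, f1, f2, f3, f4⟩ := (hR.and_eventually hev).exists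
    obtain ⟨t, ht1, ht2⟩ := hj
    have htR : |t| ≤ |R| := ht1.trans (le_abs_self R)
    have hL0 : 0 ≤ L j := n.cast_nonneg.trans f4
    refine ⟨j, t, f4, f1.shift htR hη2.le (by rw [div_mul_cancel₀ _ (by positivity)]) le_rfl hL0, ?_, ?_, ?_⟩
    · intro s hs
      have := f2 (s + t) ((abs_add_le _ _).trans (by linarith))
      push_cast at this
      exact this
    · intro s hs m hm
      exact f3 (s + t) ((abs_add_le _ _).trans (by linarith)) m hm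
    · refine le_trans (Real.exp_le_exp.2 (mul_le_mul_of_nonneg_left ?_ hL0)) ht2.le
      linarith
  choose J t h1 h2 h3 h4 h5 using key
  have h0 : Tendsto (fun n : ℕ => 1 / ((n : ℝ) + 1)) atTop (𝓝 0) := tendsto_one_div_add_atTop_nhds_zero_nat
  have hL0 : ∀ n, 0 ≤ L (J n) := fun n => n.cast_nonneg.trans (h1 n)
  refine ⟨fun n w => G (J n) (w + t n), fun n => L (J n), ⟨?_, ?_, ?_, ?_⟩, ?_, ?_, ?_⟩
  · exact tendsto_atTop_mono h1 tendsto_natCast_atTop_atTop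
  · exact fun n => (h.ent (J n)).comp (differentiable_id.add_const _)
  · intro n z
    have := h.re (J n) (z + t n)
    rw [map_add, Complex.conj_ofReal] at this
    exact this
  · intro η hη R
    filter_upwards [h0.eventually_le_const hη, eventually_ge_atTop ⌈R⌉₊] with n hn hR
    exact (h2 n).mono hn ((Nat.le_ceil _).trans (by exact_mod_cast hR)) (hL0 n)
  · intro η hη R
    filter_upwards [h0.eventually_le_const hη, eventually_ge_atTop ⌈R⌉₊] with n hn hR s hs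
    have hR' : R ≤ (n : ℝ) := (Nat.le_ceil _).trans (by exact_mod_cast hR)
    exact (h3 n s (by linarith)).trans (Real.exp_le_exp.2 (mul_le_mul_of_nonneg_left (by linarith) (hL0 n)))
  · intro η hη R
    filter_upwards [h0.eventually_le_const hη, eventually_ge_atTop ⌈R⌉₊] with n hn hR s hs m hm
    have hR' : R ≤ (n : ℝ) := (Nat.le_ceil _).trans (by exact_mod_cast hR)
    rw [Lag_shift]
    refine h4 n s (by linarith) m (le_trans ?_ hm)
    have := hL0 n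
    gcongr
  · intro δ hδ
    filter_upwards [h0.eventually_le_const hδ] with n hn
    simp only [zero_add]
    exact le_trans (Real.exp_le_exp.2 (mul_le_mul_of_nonneg_left (by linarith) (hL0 n))) (h5 n)

theorem al_of (hW4 : St_W4) (hW6 : St_W6) (hY7 : St_Y7) : St_AL := by
  obtain ⟨B, h6⟩ := hW6
  obtain ⟨ε, hε, h7⟩ := hY7 (1 / 2) B (by norm_num) le_rfl
  obtain ⟨ρ, hρ, h6⟩ := h6 ε hε
  obtain ⟨ρ', hρ', hρρ, h2⟩ := noz_two hW4 hρ
  refine ⟨4 / ρ' + 16, by positivity, fun G L κ h hκ hL => ?_⟩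
  set S : Set ℝ := {a : ℝ | 0 ≤ a ∧ ALine a G L} with hS
  have hmem : (1 / 2 : ℝ) ∈ S := ⟨by norm_num, h.line_half⟩
  have hbd : BddBelow S := ⟨0, fun b hb => hb.1⟩
  have hne : S.Nonempty := ⟨_, hmem⟩
  obtain ⟨A, hA⟩ : ∃ A : ℝ, A = sInf S := ⟨_, rfl⟩
  have hA0 : 0 ≤ A := by rw [hA]; exact le_csInf hne fun b hb => hb.1
  have hA1 : A ≤ 1 / 2 := by rw [hA]; exact csInf_le hbd hmem
  have hAU : ALine A G L := by
    intro η hη R
    obtain ⟨a, ha, haA⟩ := exists_lt_of_csInf_lt hne (show sInf S < A + η / 2 by rw [← hA]; linarith)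
    filter_upwards [ha.2 (η / 2) (by linarith) R, h.lim.eventually_ge_atTop 0] with j hj h0 s hs
    exact (hj s hs).trans (Real.exp_le_exp.2 (mul_le_mul_of_nonneg_left (by linarith) h0))
  have hAκ : A ≤ κ / ρ' := by
    rw [le_div_iff₀ hρ']
    by_contra hcon
    rw [not_le] at hcon
    have hApos : 0 < A := by
      rcases hA0.lt_or_eq with h' | h'
      · exact h'
      · rw [← h', zero_mul] at hcon; linarith
    have hκA : κ ≤ ρ' * A := by linarith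
    obtain ⟨G', L', t1, t2, t3, t4⟩ := select hApos h hAU (fun d hd hdA hUd => by
      have : sInf S ≤ A - d := csInf_le hbd ⟨by linarith, hUd⟩
      rw [← hA] at this
      linarith) hL
    obtain ⟨g, L'', hT⟩ := h6 A κ G' L' hApos hA1 hκ (hκA.trans (by gcongr)) t1 t2
      (h2 A κ G' L' hApos hA1 hκ hκA t1 t2 t3) t3 t4
    exact h7 g L'' hT
  have e1 : (4 / ρ' + 16) * κ = 4 * (κ / ρ') + 16 * κ := by ring
  have hκρ : 0 ≤ κ / ρ' := by positivity
  refine ⟨hAU.mono (by rw [e1]; linarith) h.lim, ?_⟩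
  exact (noz_four hW4 h hA0 hA1 hκ hAU hL).mono (by rw [e1]; linarith)

end Pool.Agent.Helper75.AL
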