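import Pool.Agent.Helper75.LQ.Yst

/-! Statements for the abstract local linear law. -/

set_option autoImplicit false

open Complex MeasureTheory Filter Topology

namespace Pool.Agent.Helper75.AL

open Pool.Agent.Helper75.LQ

/-- growth in the plane, and size for `y > 1/2` in a window, up to an error `η` -/
structure Ok (η R : ℝ) (G : ℂ → ℂ) (L : ℝ) : Prop where
  grow : ∀ w : ℂ, ‖G w‖ ≤ Real.exp (L * (1 / 2 + |w.im| / 2 + η * (1 + ‖w‖ ^ 2)))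
  side : ∀ w : ℂ, |w.re| ≤ R → 1 / 2 + η ≤ w.im → w.im ≤ 10 →
    Real.exp (L * (w.im / 2 - η)) ≤ ‖G w‖ ∧ ‖G w‖ ≤ Real.exp (L * (w.im / 2 + η))

/-- the sequences: `G j w = F (c + i t_j - i w) / N_j`, `L j = log q_j (t_j)` -/
structure AG (G : ℕ → ℂ → ℂ) (L : ℕ → ℝ) : Prop where
  lim : Tendsto L atTop atTop
  ent : ∀ j, Differentiable ℂ (G j)
  re : ∀ j z, G j ((starRingEnd ℂ) z) = (starRingEnd ℂ) (G j z)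
  ok : ∀ η > 0, ∀ R : ℝ, ∀ᶠ j in atTop, Ok η R (G j) (L j)

/-- bound on the line -/
def ALine (a : ℝ) (G : ℕ → ℂ → ℂ) (L : ℕ → ℝ) : Prop := ∀ η > 0, ∀ R : ℝ, ∀ᶠ j in atTop, ∀ s : ℝ, |s| ≤ R →
  ‖G j s‖ ≤ Real.exp (L j * (a + η))

/-- no zeros at distance more than `b` (and at most `1`) from the line -/
def ANoZ (b : ℝ) (G : ℕ → ℂ → ℂ) : Prop := ∀ η > 0, ∀ R : ℝ, ∀ᶠ j in atTop, ∀ w : ℂ, |w.re| ≤ R →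
  b + η ≤ w.im → w.im ≤ 1 → G j w ≠ 0

/-- Laguerre inequalities of the orders above `κ L` -/
def ALag (κ : ℝ) (G : ℕ → ℂ → ℂ) (L : ℕ → ℝ) : Prop := ∀ η > 0, ∀ R : ℝ, ∀ᶠ j in atTop, ∀ s : ℝ, |s| ≤ R →
  ∀ m : ℕ, (κ + η) * L j ≤ m → 0 ≤ Lag (G j) s m

/-- Phragmén–Lindelöf -/
def St_W1 : Prop := ∀ (G : ℕ → ℂ → ℂ) (L : ℕ → ℝ) (a : ℝ), AG G L → 0 ≤ a → a ≤ 1 / 2 → ALine a G L →
  ∀ η > 0, ∀ R : ℝ, ∀ᶠ j in atTop, ∀ w : ℂ, |w.re| ≤ R → 0 ≤ w.im → w.im ≤ 10 →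
    ‖G j w‖ ≤ Real.exp (L j * (a + w.im / 2 + η))

/-- two-sided bounds above the zeros -/
def St_W2 : Prop := ∀ (G : ℕ → ℂ → ℂ) (L : ℕ → ℝ) (b : ℝ), AG G L → 0 ≤ b → ANoZ b G →
  ∀ η > 0, ∀ R : ℝ, ∀ᶠ j in atTop, ∀ w : ℂ, |w.re| ≤ R → b + η ≤ w.im → w.im ≤ 9 →
    Real.exp (L j * (w.im / 2 - η)) ≤ ‖G j w‖ ∧ ‖G j w‖ ≤ Real.exp (L j * (w.im / 2 + η))

/-- convexity -/
def St_W3 : Prop := ∀ (G : ℕ → ℂ → ℂ) (L : ℕ → ℝ) (a b : ℝ), AG G L → 0 ≤ a → a ≤ 1 / 2 → 0 < b → b ≤ 2 →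
  ALine a G L → ANoZ b G → ∀ η > 0, ∀ R : ℝ, ∀ᶠ j in atTop, ∀ w : ℂ, |w.re| ≤ R → 0 ≤ w.im → w.im ≤ b →
    ‖G j w‖ ≤ Real.exp (L j * (w.im / 2 + a * (1 - w.im / b) + η))

/-- the core -/
def St_W4 : Prop := ∀ (G : ℕ → ℂ → ℂ) (L : ℕ → ℝ) (a κ r b : ℝ), AG G L → 0 ≤ a → a ≤ 1 / 2 → 0 ≤ κ → 0 < r →
  r ≤ b → b ≤ 1 / 2 → 2 * a + r + 2 * κ * Real.log (b / r) < b → ALine a G L → ANoZ b G → ALag κ G L →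
    ∃ b' : ℝ, 0 ≤ b' ∧ b' < b ∧ ANoZ b' G

/-- The rescaled sequences: `g j z = G j (2 A z)`, `L' j = 2 A (L j)`. -/
def St_W6 : Prop := ∃ B : ℝ → ℝ, ∀ ε : ℝ, 0 < ε → ∃ ρ : ℝ, 0 < ρ ∧ ∀ (A κ : ℝ) (G : ℕ → ℂ → ℂ) (L : ℕ → ℝ),
  0 < A → A ≤ 1 / 2 → 0 ≤ κ → κ ≤ ρ * A → AG G L → ALine A G L → ANoZ (2 * A * (1 + ρ)) G → ALag κ G L →
    (∀ δ > 0, ∀ᶠ j in atTop, Real.exp (L j * (A - δ)) ≤ ‖G j 0‖) →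
      ∃ (g : ℕ → ℂ → ℂ) (L' : ℕ → ℝ), TLe (1 / 2) B ε g L'

/-- **the abstract local linear law** -/
def St_AL : Prop := ∃ K : ℝ, 0 < K ∧ ∀ (G : ℕ → ℂ → ℂ) (L : ℕ → ℝ) (κ : ℝ), AG G L → 0 ≤ κ → ALag κ G L →
  ALine (K * κ) G L ∧ ANoZ (K * κ) G

/-- the direct part: a zero-free box gives the Laguerre inequalities of the orders `κ L ≤ m ≤ 2 L` -/
def St_W5 : Prop := ∀ (G : ℕ → ℂ → ℂ) (L : ℕ → ℝ) (b κ : ℝ), AG G L → 0 ≤ b → 0 < κ → b < 2 * κ → ANoZ b G →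
  ∀ R : ℝ, ∀ᶠ j in atTop, ∀ s : ℝ, |s| ≤ R → ∀ m : ℕ, κ * L j ≤ m → (m : ℝ) ≤ 2 * L j → 0 < Lag (G j) s m

end Pool.Agent.Helper75.AL
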