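import Pool.Agent.Helper75.AL.Core
import Pool.Agent.Helper75.AL.All
import Pool.Agent.Helper59.LQ.Y6
import Pool.Agent.Helper85.LQ.Fine
import Pool.Agent.Helper75.LQ.LocFin

/-! The zeta function as an instance of the abstract law. -/

set_option autoImplicit false
set_option maxHeartbeats 1000000

open Complex MeasureTheory Filter Topology

namespace Pool.Agent.Helper75.AL

open Pool.Agent.Helper75.LQ Pool.Agent.Helper75.JE Pool.Agent.Helper59.LQ
open Pool.Agent.H306R2 (Zt)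
open Pool.Agent.Helper85.LG (xi Pg xi_diff xi_one_sub xi_conj Lm Pg_ne xi_eq zeta_two_sided)

/-- lower bound of `xi` in a box of any size -/
lemma xi_box_lo (R Y : ℝ) (hY : 0 ≤ Y) : ∃ C X : ℝ, 0 ≤ C ∧ 3 ≤ X ∧ ∀ x : ℝ, X ≤ x → ∀ s y : ℝ, |s| ≤ R → 0 ≤ y → y ≤ Y →
    Nx x * Real.exp (-C + y / 2 * Real.log x) *
      ‖riemannZeta (((1 / 2 + y : ℝ) : ℂ) + ((x + s : ℝ) : ℂ) * I)‖ ≤ ‖xi (1 / 2 + y + (x + s) * I)‖ := by
  obtain ⟨CV, hCV0, hV⟩ := Pg_vert
  obtain ⟨CH, hCH0, hH⟩ := Pg_hor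
  refine ⟨CV * |R| + Y * (CH + 1) + 1, max (2 * |R| + 2 * Y + 20) 20, by positivity,
    by have := le_max_right (2 * |R| + 2 * Y + 20) 20; linarith, fun x hx s y hs hy0 hyY => ?_⟩
  have hx1 := (le_max_left _ _).trans hx
  have hx2 := (le_max_right _ _).trans hx
  have hx0 : 0 < x := by linarith
  have hR : |s| ≤ |R| := hs.trans (le_abs_self R)
  have hR0 : 0 ≤ |R| := abs_nonneg R
  have hs2 := abs_le.1 hR
  set t : ℝ := x + s with ht
  have ht1 : x / 2 ≤ t := by linarith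
  have hlx : 0 ≤ Real.log x := Real.log_nonneg (by linarith)
  have hlog2 : Real.log 2 ≤ 1 := by linarith [Real.log_two_lt_d9]
  have hl2 : Real.log x - 1 ≤ Real.log t := by
    have h1 := Real.log_le_log (by positivity) ht1
    rw [Real.log_div hx0.ne' (by norm_num)] at h1
    linarith
  have h1 := (hH t (1 / 2) (1 / 2 + y) (by linarith) (by norm_num) (by linarith)).2
  have v1 := hV (1 / 2) (by norm_num) x t
  have et : |x - t| ≤ |R| := by rw [ht, abs_sub_comm]; simpa using hR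
  have p0 := Pg_pos (σ := 1 / 2) (by norm_num) t
  have ey : 1 / 2 + y - 1 / 2 = y := by ring
  rw [ey] at h1
  set z : ℂ := ((1 / 2 + y : ℝ) : ℂ) + (t : ℂ) * I with hz
  have ez : (1 / 2 + y + (x + s) * I : ℂ) = z := by rw [hz, ht]; push_cast; ring
  have ex : (((1 / 2 : ℝ) : ℂ) + (x : ℂ) * I) = 1 / 2 + x * I := by push_cast; ring
  rw [ex] at v1
  have hP : Real.exp (-(CV * |R|) + y / 2 * (Real.log x - 1 - CH)) * ‖Pg (1 / 2 + x * I)‖ ≤ ‖Pg z‖ := by
    refine le_trans ?_ h1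
    refine le_trans (mul_le_mul_of_nonneg_left v1 (Real.exp_pos _).le) ?_
    rw [← mul_assoc, ← Real.exp_add]
    apply mul_le_mul_of_nonneg_right _ p0.le
    apply Real.exp_le_exp.2
    have a1 : y / 2 * (Real.log x - 1 - CH) ≤ y / 2 * (Real.log t - CH) :=
      mul_le_mul_of_nonneg_left (by linarith) (by linarith)
    have a2 : CV * |x - t| ≤ CV * |R| := mul_le_mul_of_nonneg_left et hCV0
    linarith
  have hre : z.re = 1 / 2 + y := by simp [hz]
  have him : z.im = t := by simp [hz]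
  have hne : z ≠ 1 := by
    intro h
    have := congrArg im h
    rw [him] at this
    simp at this
    linarith
  rw [ez, xi_eq (by rw [hre]; linarith), ← Pool.Agent.H306R2.zeta_eq_pos (by rw [hre]; linarith) hne, norm_mul]
  have n1 : x / 2 ≤ ‖z - 1‖ := by
    have := Complex.abs_im_le_norm (z - 1)
    rw [sub_im, him] at this
    simp only [one_im, sub_zero] at this
    rw [abs_of_nonneg (by linarith : 0 ≤ t)] at this
    linarith
  have z0 := norm_nonneg (riemannZeta z)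
  have e2 : (2 : ℝ) ≤ Real.exp 1 := by have := Real.exp_one_gt_d9; linarith
  rw [norm_mul]
  have e3 : Real.exp (-1) ≤ 1 / 2 := by
    rw [Real.exp_neg, inv_le_comm₀ (Real.exp_pos _) (by norm_num)]
    linarith
  have hPg0 : 0 ≤ ‖Pg (1 / 2 + x * I)‖ := norm_nonneg _
  calc Nx x * Real.exp (-(CV * |R| + Y * (CH + 1) + 1) + y / 2 * Real.log x) * ‖riemannZeta z‖
      ≤ Nx x * Real.exp (-1 + (-(CV * |R|) + y / 2 * (Real.log x - 1 - CH))) * ‖riemannZeta z‖ := by
        apply mul_le_mul_of_nonneg_right _ z0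
        apply mul_le_mul_of_nonneg_left _ (Nx_pos hx0).le
        apply Real.exp_le_exp.2
        have : y / 2 * (CH + 1) ≤ Y * (CH + 1) := mul_le_mul_of_nonneg_right (by linarith) (by linarith)
        linarith
    _ = Real.exp (-1) * (x * ‖Pg (1 / 2 + x * I)‖ * Real.exp (-(CV * |R|) + y / 2 * (Real.log x - 1 - CH)) *
          ‖riemannZeta z‖) := by
        unfold Nx
        rw [Real.exp_add (-1)]; ring
    _ ≤ 1 / 2 * (x * ‖Pg (1 / 2 + x * I)‖ * Real.exp (-(CV * |R|) + y / 2 * (Real.log x - 1 - CH)) *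
          ‖riemannZeta z‖) := by
        apply mul_le_mul_of_nonneg_right e3 (by positivity)
    _ = (x / 2) * ‖riemannZeta z‖ * (Real.exp (-(CV * |R|) + y / 2 * (Real.log x - 1 - CH)) *
          ‖Pg (1 / 2 + x * I)‖) := by ring
    _ ≤ ‖z - 1‖ * ‖riemannZeta z‖ * ‖Pg z‖ := by
        apply mul_le_mul _ hP (by positivity) (by positivity)
        exact mul_le_mul_of_nonneg_right n1 z0

lemma upA_half : UpA (1 / 2) := by
  intro ε hε
  obtain ⟨C, hC⟩ := Pool.Agent.Helper68.LQ.half_bound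
  refine ⟨|C|, fun t ht => (hC t ht).trans ?_⟩
  have h1 : t ^ (1 / 2 : ℝ) ≤ t ^ (1 / 2 + ε) := Real.rpow_le_rpow_of_exponent_le ht (by linarith)
  have h2 : 0 ≤ t ^ (1 / 2 : ℝ) := Real.rpow_nonneg (by linarith) _
  calc C * t ^ (1 / 2 : ℝ) ≤ |C| * t ^ (1 / 2 : ℝ) := mul_le_mul_of_nonneg_right (le_abs_self C) h2
    _ ≤ |C| * t ^ (1 / 2 + ε) := mul_le_mul_of_nonneg_left h1 (abs_nonneg C)

/-- the zeta function is an instance -/
theorem ag_zeta {x : ℕ → ℝ} (hx : Tendsto x atTop atTop) : AG (fun j => gl (x j)) (fun j => Real.log (x j)) := by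
  have hlim : Tendsto (fun j => Real.log (x j)) atTop atTop := Real.tendsto_log_atTop.comp hx
  refine ⟨hlim, fun j => gl_diff _, fun j z => gl_re _ z, fun η hη R => ?_⟩
  obtain ⟨C5, hC5, h5⟩ := Pool.Agent.Helper85.LQ.st_L5
  obtain ⟨X5, h5⟩ := h5 (1 / 2) (by norm_num) le_rfl upA_half (η / 2) (by linarith)
  obtain ⟨Cu, Xu, hCu, hXu, hu⟩ := xi_box R 10 (by norm_num)
  obtain ⟨Cl, Xl, hCl, hXl, hl⟩ := xi_box_lo R 10 (by norm_num)
  obtain ⟨B, hB1, hB⟩ := zeta_two_sided (σ := 1 + η) (by linarith)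
  have hB0 : 0 < B := by linarith
  filter_upwards [hx.eventually_ge_atTop X5, hx.eventually_ge_atTop Xu, hx.eventually_ge_atTop Xl,
    hlim.eventually_ge_atTop ((3 * C5) / η), hlim.eventually_ge_atTop ((Cu + Real.log B) / η),
    hlim.eventually_ge_atTop ((Cl + Real.log B) / η)] with j f1 f2 f3 f4 f5 f6
  rw [div_le_iff₀ hη] at f4 f5 f6
  have hx0 : 0 < x j := by linarith
  have hN := Nx_pos hx0
  have hlx : 0 ≤ Real.log (x j) := Real.log_nonneg (by linarith)
  constructor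
  · intro w
    rw [norm_gl hx0, div_le_iff₀ hN]
    obtain ⟨v, hv⟩ : ∃ v : ℂ, v = ((|w.im| : ℝ) : ℂ) + ((w.re : ℝ) : ℂ) * I := ⟨_, rfl⟩
    have hvr : v.re = |w.im| := by rw [hv]; simp
    have hvn : ‖v‖ = ‖w‖ := by
      have : ‖v‖ ^ 2 = ‖w‖ ^ 2 := by
        rw [Complex.sq_norm, Complex.sq_norm, Complex.normSq_apply, Complex.normSq_apply, hv]
        simp only [add_re, ofReal_re, mul_re, I_re, mul_zero, ofReal_im, I_im, mul_one, sub_self, add_zero, add_im,
          mul_im, zero_add]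
        rw [abs_mul_abs_self]
        ring
      exact (pow_left_inj₀ (norm_nonneg _) (norm_nonneg _) (by norm_num)).1 this
    have e1 : (1 / 2 + ((|w.im| : ℝ) : ℂ) + ((x j : ℂ) + ((w.re : ℝ) : ℂ)) * I : ℂ) = 1 / 2 + v + x j * I := by
      rw [hv]; ring
    rw [e1]
    refine (h5 (x j) f1 v).trans ?_
    rw [mul_comm]
    apply mul_le_mul_of_nonneg_right _ hN.le
    apply Real.exp_le_exp.2
    rw [hvr, hvn, abs_abs]
    have h6 : ‖w‖ * Real.sqrt (1 + ‖w‖) ≤ 3 / 2 * (1 + ‖w‖ ^ 2) := by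
      have a0 := norm_nonneg w
      have a1 : Real.sqrt (1 + ‖w‖) ≤ 1 + ‖w‖ := by
        rw [Real.sqrt_le_left (by linarith)]
        nlinarith
      nlinarith [mul_le_mul_of_nonneg_left a1 a0, sq_nonneg (‖w‖ - 1)]
    have h7 : C5 * ‖w‖ * Real.sqrt (1 + ‖w‖) ≤ C5 * (3 / 2 * (1 + ‖w‖ ^ 2)) := by
      rw [mul_assoc]; exact mul_le_mul_of_nonneg_left h6 (by linarith)
    have h8 : C5 * (3 / 2 * (1 + ‖w‖ ^ 2)) ≤ Real.log (x j) * (η / 2) * (1 + ‖w‖ ^ 2) := by
      have : 0 ≤ 1 + ‖w‖ ^ 2 := by positivity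
      nlinarith
    have h9 : Real.log (x j) * (η / 2) ≤ Real.log (x j) * (η / 2) * (1 + ‖w‖ ^ 2) := by
      have : 0 ≤ Real.log (x j) * (η / 2) := by positivity
      nlinarith [sq_nonneg ‖w‖]
    linarith
  · intro w h1 h2 h3
    have hy0 : 0 ≤ w.im := by linarith
    rw [norm_gl hx0, abs_of_nonneg hy0]
    have hr : (1 + η) ≤ (((1 / 2 + w.im : ℝ) : ℂ) + ((x j + w.re : ℝ) : ℂ) * I).re := by
      simp; linarith
    obtain ⟨b1, b2'⟩ := hB _ hr
    have b2 : B⁻¹ ≤ ‖riemannZeta (((1 / 2 + w.im : ℝ) : ℂ) + ((x j + w.re : ℝ) : ℂ) * I)‖ := by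
      rw [inv_le_iff_one_le_mul₀ hB0, mul_comm]
      exact b2'
    have u := hu (x j) f2 w.re w.im h1 hy0 h3
    have l := hl (x j) f3 w.re w.im h1 hy0 h3
    constructor
    · rw [le_div_iff₀ hN]
      refine le_trans ?_ l
      have : Real.exp (Real.log (x j) * (w.im / 2 - η)) ≤ Real.exp (-Cl + w.im / 2 * Real.log (x j)) *
          ‖riemannZeta (((1 / 2 + w.im : ℝ) : ℂ) + ((x j + w.re : ℝ) : ℂ) * I)‖ := by
        refine le_trans ?_ (mul_le_mul_of_nonneg_left b2 (Real.exp_pos _).le)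
        rw [← Real.exp_log hB0, ← Real.exp_neg, ← Real.exp_add]
        apply Real.exp_le_exp.2
        linarith
      calc Real.exp (Real.log (x j) * (w.im / 2 - η)) * Nx (x j) ≤
            (Real.exp (-Cl + w.im / 2 * Real.log (x j)) *
              ‖riemannZeta (((1 / 2 + w.im : ℝ) : ℂ) + ((x j + w.re : ℝ) : ℂ) * I)‖) * Nx (x j) :=
            mul_le_mul_of_nonneg_right this hN.le
        _ = _ := by ring
    · rw [div_le_iff₀ hN]
      refine u.trans ?_
      have : Real.exp (Cu + w.im / 2 * Real.log (x j)) *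
          ‖riemannZeta (((1 / 2 + w.im : ℝ) : ℂ) + ((x j + w.re : ℝ) : ℂ) * I)‖ ≤
          Real.exp (Real.log (x j) * (w.im / 2 + η)) := by
        refine (mul_le_mul_of_nonneg_left b1 (Real.exp_pos _).le).trans ?_
        rw [← Real.exp_log hB0, ← Real.exp_add]
        apply Real.exp_le_exp.2
        linarith
      calc Nx (x j) * Real.exp (Cu + w.im / 2 * Real.log (x j)) *
            ‖riemannZeta (((1 / 2 + w.im : ℝ) : ℂ) + ((x j + w.re : ℝ) : ℂ) * I)‖ =
            (Real.exp (Cu + w.im / 2 * Real.log (x j)) *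
              ‖riemannZeta (((1 / 2 + w.im : ℝ) : ℂ) + ((x j + w.re : ℝ) : ℂ) * I)‖) * Nx (x j) := by ring
        _ ≤ _ := mul_le_mul_of_nonneg_right this hN.le

end Pool.Agent.Helper75.AL
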